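import Mathlib
import Pool.Agent.Y70.SG.Main

set_option autoImplicit false

/-!
# An unstable strict GKK tau-matrix of the smallest possible order
-/

namespace Pool.Agent.Results.MP_25f4f2_al.StrictTau

open Pool.Agent.Y70.SG

theorem stable_of_le_four {n : ℕ} (hn : n ≤ 4) {A : Matrix (Fin n) (Fin n) ℂ} (hA : IsStrictGKK A) :
    IsStable A := by
  intro μ hμ
  refine Pool.Agent.Results.MP_f9eabf_al.Four.stable_small hn (A := A) ?_ ?_ μ hμ
  · exact hA.1
  · intro k α β h
    have := hA.2 k α β h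
    exact ⟨this.1, this.2.le⟩

/-- The least order in which an unstable strict GKK tau-matrix exists is `5`. -/
theorem result :
    IsLeast {n : ℕ | ∃ A : Matrix (Fin n) (Fin n) ℂ, IsStrictGKK A ∧ IsTau A ∧ ¬ IsStable A} 5 := by
  refine ⟨⟨WC, WC_strict, WC_tau, ?_⟩, ?_⟩
  · intro h
    obtain ⟨μ, hμ, h0⟩ := WC_unstable
    exact absurd (h μ hμ) (not_lt.mpr h0.le)
  · rintro n ⟨A, hA, -, hns⟩
    by_contra hcon
    exact hns (stable_of_le_four (by omega) hA)

end Pool.Agent.Results.MP_25f4f2_al.StrictTau
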